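import Mathlib
import Pool.Agent.Q21.DW.Real
import Pool.Agent.Q21.DW.Cheb
import Pool.Agent.Results.MP_fb29e9_nt.ExceptionalSets
import Pool.Agent.Results.MP_fb29e9_nt.JointMoments

set_option autoImplicit false

/-! # The Gauss circle problem along the digits and around the dilates of real numbers

`P(R) = #{(m, n) ∈ ℤ² : m² + n² ≤ R²} - π R²`.

For `0 < ε < 1/6` the conjectured bound `|P(n)| ≤ n ^ (1/2 + ε)` holds at ALL the integer radii `n` which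
are read off from `k` consecutive digits of a real number `α`, in any base `g` and from any position up to
`g ^ (κ k)`, `κ < 6 ε`, `k` large, for almost every `α`; and for all `α` outside a set of Hausdorff
dimension at most `(1 - 6 ε + η) / (1 + η)` from the positions up to `η k`.  Similarly for all the integers
of windows `|n - α v_k| ≤ w_k`.

For small `ε` the bound `|P(√y)| ≤ y ^ (1/4 + ε)` holds at ALL real `y` with `n ≤ y < n + 1` for such `n`,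
with `6 ε` replaced by `c ε log (1 / ε)`. -/

namespace Pool.Agent.Results.MP_fb29e9_nt.RandomReals

open MeasureTheory Filter

/-- the error term `P(R)` of the circle problem -/
noncomputable def P (R : ℝ) : ℝ :=
  (Nat.card {p : ℤ × ℤ // (p.1 : ℝ) ^ 2 + (p.2 : ℝ) ^ 2 ≤ R ^ 2} : ℝ) - Real.pi * R ^ 2

/-- the conjectured bound with exponent `1/2 + ε` at the positive integer `n` -/
def GoodRadius (ε : ℝ) (n : ℕ) : Prop := n ≠ 0 ∧ |P n| ≤ (n : ℝ) ^ (1 / 2 + ε)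

/-- the conjectured bound at all radii `√y`, `n ≤ y < n + 1`, `n` a positive integer -/
def GoodUnit (ε : ℝ) (n : ℕ) : Prop :=
  n ≠ 0 ∧ ∀ y : ℝ, (n : ℝ) ≤ y → y < n + 1 → |P (Real.sqrt y)| ≤ y ^ (1 / 4 + ε)

section

/-- the normalised error term -/
noncomputable def E (x : ℝ) : ℝ :=
  ((Nat.card {p : ℤ × ℤ // (p.1 : ℝ) ^ 2 + (p.2 : ℝ) ^ 2 ≤ x} : ℝ) - Real.pi * x) / x ^ (1 / 4 : ℝ)

lemma P_sqrt {y : ℝ} (hy : 0 < y) {ε : ℝ} (h : |E y| ≤ y ^ ε) :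
    |P (Real.sqrt y)| ≤ y ^ (1 / 4 + ε) := by
  have h1 : E y = P (Real.sqrt y) / y ^ (1 / 4 : ℝ) := by
    unfold E P
    rw [Real.sq_sqrt hy.le]
  rw [h1, abs_div, abs_of_pos (Real.rpow_pos_of_pos hy _), div_le_iff₀ (Real.rpow_pos_of_pos hy _)] at h
  rw [Real.rpow_add hy, mul_comm]
  exact h

lemma P_nat {n : ℕ} (hn : n ≠ 0) {ε : ℝ} (h : |E ((n : ℝ) ^ 2)| ≤ (n : ℝ) ^ ε) :
    |P n| ≤ (n : ℝ) ^ (1 / 2 + ε) := by
  have hn0 : (0 : ℝ) < n := by exact_mod_cast Nat.pos_of_ne_zero hn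
  have h1 : E ((n : ℝ) ^ 2) = P n / (n : ℝ) ^ (1 / 2 : ℝ) := by
    unfold E P
    have h2 : ((n : ℝ) ^ 2) ^ (1 / 4 : ℝ) = (n : ℝ) ^ (1 / 2 : ℝ) := by
      rw [← Real.rpow_natCast, ← Real.rpow_mul hn0.le]
      norm_num
    rw [h2]
  rw [h1, abs_div, abs_of_pos (Real.rpow_pos_of_pos hn0 _), div_le_iff₀ (Real.rpow_pos_of_pos hn0 _)] at h
  rw [Real.rpow_add hn0, mul_comm]
  exact h

/-- integer radii -/
def B₁ (ε : ℝ) (n : ℕ) : Prop := (n : ℝ) ^ ε < |E ((n : ℝ) ^ 2)|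

/-- unit intervals -/
def B₂ (ε : ℝ) (n : ℕ) : Prop := ∃ y : ℝ, (n : ℝ) ≤ y ∧ y < n + 1 ∧ y ^ ε < |E y|

lemma good₁ {ε : ℝ} {n : ℕ} (h : n ≠ 0 ∧ ¬ B₁ ε n) : GoodRadius ε n :=
  ⟨h.1, P_nat h.1 (not_lt.1 h.2)⟩

lemma good₂ {ε : ℝ} {n : ℕ} (h : n ≠ 0 ∧ ¬ B₂ ε n) : GoodUnit ε n := by
  refine ⟨h.1, fun y h1 h2 => ?_⟩
  have hn0 : (0 : ℝ) < n := by exact_mod_cast Nat.pos_of_ne_zero h.1
  refine P_sqrt (lt_of_lt_of_le hn0 h1) ?_
  by_contra h3
  exact h.2 ⟨y, h1, h2, not_le.1 h3⟩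

lemma ps₁ (ε : ℝ) (h0 : 0 < ε) (h1 : ε < 1 / 6) : Pool.Agent.Q21.DW.PS (1 - 6 * ε) (B₁ ε) := by
  classical
  intro t ht
  obtain ⟨p, hp0, hp6, hpt⟩ : ∃ p : ℝ, 0 < p ∧ p < 6 ∧ 1 - p * ε < t := by
    have h2 : (1 - t) / ε < 6 := by
      rw [div_lt_iff₀ h0]
      linarith
    obtain ⟨p, h3, h4⟩ := exists_between (max_lt (show (0 : ℝ) < 6 by norm_num) h2)
    refine ⟨p, lt_of_le_of_lt (le_max_left _ _) h3, h4, ?_⟩
    have h5 := lt_of_le_of_lt (le_max_right _ _) h3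
    rw [div_lt_iff₀ h0] at h5
    linarith
  obtain ⟨μ, g, -, -, -, -, hmom, -⟩ := JointMoments.result E (fun x => rfl) 1 1 one_pos
    (fun _ => 2) (fun _ => 1) (fun a b _ => Subsingleton.elim a b) (fun _ n => by positivity)
  have hp1 : 0 < 1 - max (1 / 2) (p / 6) := by
    have : max (1 / 2 : ℝ) (p / 6) < 1 := max_lt (by norm_num) (by linarith)
    linarith
  obtain ⟨-, h2⟩ := hmom p hp0 hp6 (fun x => |x 0| ^ p)
    ((continuous_abs.comp (continuous_apply 0)).rpow_const fun _ => Or.inr hp0.le)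
    ⟨1, fun x => by
      rw [abs_of_nonneg (by positivity), one_mul, Fin.sum_univ_one]
      linarith⟩
  obtain ⟨N₀, h3⟩ := h2 _ hp1 1 one_pos
  set I : ℝ := ∫ x : Fin 1 → ℝ, |x 0| ^ p ∂(μ : Measure (Fin 1 → ℝ)) with hI
  have h4 : ∀ N : ℕ, max N₀ 1 ≤ N → ∑ n ∈ Finset.Icc 1 N, |E ((n : ℝ) ^ 2)| ^ p ≤ (|I| + 1) * N := by
    intro N hN
    have hN0 : N₀ ≤ N := (le_max_left _ _).trans hN
    have hN1 : 1 ≤ N := (le_max_right _ _).trans hN
    have hNpos : (0 : ℝ) < N := by exact_mod_cast hN1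
    have h5 := h3 N hN0 0 (by
      rw [add_sub_cancel, Real.rpow_one]
      simp)
    have h6 : (∑ n ∈ Finset.Ico 0 (0 + N), |E (1 * (n : ℝ) ^ 2 + 2 * n + 1)| ^ p) =
        ∑ n ∈ Finset.Icc 1 N, |E ((n : ℝ) ^ 2)| ^ p := by
      rw [zero_add]
      have h7 : Finset.Icc 1 N = (Finset.Ico 0 N).map ⟨fun n => n + 1, add_left_injective 1⟩ := by
        ext m
        simp only [Finset.mem_Icc, Finset.mem_map, Finset.mem_Ico, Function.Embedding.coeFn_mk]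
        constructor
        · rintro ⟨h8, h9⟩
          exact ⟨m - 1, by omega, by omega⟩
        · rintro ⟨a, h8, h9⟩
          omega
      rw [h7, Finset.sum_map]
      refine Finset.sum_congr rfl fun n _ => ?_
      have h8 : 1 * (n : ℝ) ^ 2 + 2 * n + 1 = (((⟨fun n => n + 1, add_left_injective 1⟩ : ℕ ↪ ℕ) n : ℕ) : ℝ) ^ 2 := by
        simp only [Function.Embedding.coeFn_mk]
        push_cast
        ring
      rw [h8]
    have h7 := (abs_le.1 h5).2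
    have h8 : (∑ n ∈ Finset.Ico 0 (0 + N), |E (1 * (n : ℝ) ^ 2 + 2 * n + 1)| ^ p) / N ≤ |I| + 1 := by
      have h9 := le_abs_self I
      linarith
    rw [h6, div_le_iff₀ hNpos] at h8
    exact h8
  have hpε : p * ε < 1 := by nlinarith
  obtain ⟨C, hC⟩ := Pool.Agent.Q21.DW.cheb (fun n => |E ((n : ℝ) ^ 2)| ^ p) (fun n => by positivity) _ _ h4
    (p * ε) (by positivity) hpε (B₁ ε) (fun n hn h5 => by
      rw [mul_comm, Real.rpow_mul (Nat.cast_nonneg _)]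
      exact Real.rpow_le_rpow (by positivity) h5.le hp0.le)
  refine ⟨|C|, fun N hN => (hC N hN).trans ?_⟩
  have hN1 : (1 : ℝ) ≤ N := by exact_mod_cast hN
  calc C * (N : ℝ) ^ (1 - p * ε) ≤ |C| * (N : ℝ) ^ (1 - p * ε) :=
        mul_le_mul_of_nonneg_right (le_abs_self C) (by positivity)
    _ ≤ |C| * (N : ℝ) ^ t :=
        mul_le_mul_of_nonneg_left (Real.rpow_le_rpow_of_exponent_le hN1 hpt.le) (abs_nonneg C)

lemma ps₂ : ∃ c : ℝ, 0 < c ∧ c ≤ 1 / 2 ∧ ∀ ε : ℝ, 0 < ε → ε ≤ c →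
    Pool.Agent.Q21.DW.PS (1 - c * (ε * Real.log (1 / ε))) (B₂ ε) := by
  classical
  obtain ⟨h, -, -⟩ := ExceptionalSets.result E (fun x => rfl)
    (fun m => Nat.card {p : ℤ × ℤ // p.1 ^ 2 + p.2 ^ 2 = (m : ℤ)}) (fun m => rfl)
  obtain ⟨c, hc, h⟩ := h 1 one_pos
  refine ⟨min c (1 / 2), lt_min hc (by norm_num), min_le_right _ _, fun ε h0 h1 => ?_⟩
  obtain ⟨C, hC, h⟩ := h ε h0 (h1.trans (min_le_left _ _))
  have hε1 : ε ≤ 1 / 2 := h1.trans (min_le_right _ _)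
  have hlog : 0 ≤ Real.log (1 / ε) := Real.log_nonneg (by rw [le_div_iff₀ h0]; linarith)
  intro t ht
  refine ⟨C, fun N hN => ?_⟩
  have hN1 : (1 : ℝ) ≤ N := by exact_mod_cast hN
  have h2 := h 1 N le_rfl (by rw [Nat.cast_one, Real.one_rpow]; exact hN1)
  have h3 : (((Finset.Icc 1 N).filter (B₂ ε)).card : ℝ) ≤ C * (N : ℝ) ^ (1 - c * (ε * Real.log (1 / ε))) := by
    refine le_trans (Nat.cast_le.2 (Pool.Agent.Q21.DW.card_mono fun n hn h5 => ⟨?_, h5⟩)) h2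
    rw [Finset.mem_Icc] at hn
    rw [Finset.mem_Ico]
    omega
  refine h3.trans (mul_le_mul_of_nonneg_left (Real.rpow_le_rpow_of_exponent_le hN1 ?_) hC.le)
  have h4 : min c (1 / 2) * (ε * Real.log (1 / ε)) ≤ c * (ε * Real.log (1 / ε)) :=
    mul_le_mul_of_nonneg_right (min_le_left _ _) (by positivity)
  linarith

end

theorem result :
    -- integer radii
    (∀ ε : ℝ, 0 < ε → ε < 1 / 6 →
      Pool.Agent.Q21.DW.RandomReals (1 - 6 * ε) (fun _ : Unit => GoodRadius ε)) ∧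
    -- all radii
    ∃ c : ℝ, 0 < c ∧ ∀ ε : ℝ, 0 < ε → ε ≤ c → 1 - c * (ε * Real.log (1 / ε)) < 1 ∧
      Pool.Agent.Q21.DW.RandomReals (1 - c * (ε * Real.log (1 / ε))) (fun _ : Unit => GoodUnit ε) := by
  refine ⟨fun ε h0 h1 => ?_, ?_⟩
  · exact Pool.Agent.Q21.DW.randomReals_of (B := fun _ : Unit => B₁ ε) (by linarith) (by linarith)
      (fun _ => ps₁ ε h0 h1) (fun _ n h2 h3 => good₁ ⟨h2, h3⟩)
  · obtain ⟨c, hc, hc2, h⟩ := ps₂
    refine ⟨c, hc, fun ε h0 h1 => ?_⟩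
    have hε1 : ε ≤ 1 / 2 := h1.trans hc2
    have hlog : 0 < Real.log (1 / ε) := Real.log_pos (by rw [lt_div_iff₀ h0]; linarith)
    have hle : ε * Real.log (1 / ε) ≤ 1 := by
      have h2 := Real.log_le_sub_one_of_pos (show 0 < 1 / ε by positivity)
      have h3 : ε * Real.log (1 / ε) ≤ ε * (1 / ε - 1) := mul_le_mul_of_nonneg_left h2 h0.le
      have h4 : ε * (1 / ε - 1) = 1 - ε := by field_simp
      linarith
    have hpos : 0 < c * (ε * Real.log (1 / ε)) := by positivity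
    have hθ0 : 0 ≤ 1 - c * (ε * Real.log (1 / ε)) := by nlinarith
    exact ⟨by linarith, Pool.Agent.Q21.DW.randomReals_of (B := fun _ : Unit => B₂ ε) hθ0 (by linarith)
      (fun _ => h ε h0 h1) (fun _ n h2 h3 => good₂ ⟨h2, h3⟩)⟩

end Pool.Agent.Results.MP_fb29e9_nt.RandomReals
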